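import Pool.Agent.Helper72.AI.Stmts

/-!
# The functional-differential equation
-/

set_option autoImplicit false

namespace Pool.Agent.Helper90.AI

open Filter Topology Asymptotics

/-- Squeezing a derivative from both sides (in either order). -/
theorem squeeze {g u v : ℝ → ℝ} {θ d : ℝ} (hu : HasDerivAt u d θ) (hv : HasDerivAt v d θ)
    (hu0 : u θ = 0) (hv0 : v θ = 0)
    (h : ∀ᶠ φ in 𝓝 θ, (u φ ≤ g φ - g θ ∧ g φ - g θ ≤ v φ)) : HasDerivAt g d θ := by
  rw [hasDerivAt_iff_isLittleO] at hu hv ⊢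
  simp only [hu0, hv0, sub_zero] at hu hv
  have h1 := hu.norm_left.add hv.norm_left
  refine IsBigO.trans_isLittleO (IsBigO.of_bound 1 ?_) h1
  filter_upwards [h] with φ hφ
  have e : ‖(‖u φ - (φ - θ) • d‖ + ‖v φ - (φ - θ) • d‖)‖ =
      |u φ - (φ - θ) • d| + |v φ - (φ - θ) • d| := by
    rw [Real.norm_of_nonneg (add_nonneg (norm_nonneg _) (norm_nonneg _)), Real.norm_eq_abs,
      Real.norm_eq_abs]
  rw [one_mul, e, Real.norm_eq_abs]
  have h2 := neg_abs_le (u φ - (φ - θ) • d)
  have h3 := le_abs_self (v φ - (φ - θ) • d)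
  have h4 := abs_nonneg (u φ - (φ - θ) • d)
  have h5 := abs_nonneg (v φ - (φ - θ) • d)
  rw [abs_le]
  constructor <;> linarith [hφ.1, hφ.2]

/-- A continuous function times a differentiable function that vanishes. -/
theorem mul_deriv {m : ℝ → ℝ} {θ : ℝ} (hm : ContinuousAt m θ) :
    HasDerivAt (fun φ => m φ * (Real.cos φ - Real.cos θ)) (-(m θ * Real.sin θ)) θ := by
  rw [hasDerivAt_iff_tendsto_slope]
  have h1 : Tendsto (slope Real.cos θ) (𝓝[≠] θ) (𝓝 (-Real.sin θ)) :=
    hasDerivAt_iff_tendsto_slope.1 (Real.hasDerivAt_cos θ)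
  have h2 := (hm.tendsto.mono_left nhdsWithin_le_nhds).mul h1
  rw [mul_neg] at h2
  refine h2.congr (fun φ => ?_)
  simp only [slope_def_field, sub_self, mul_zero, sub_zero]
  ring

theorem pf_S_ode : AffInc.S_ode := by
  intro g hg hper h1 h2
  set D : ℝ → ℝ := fun θ =>
    (g (θ + 2 * Real.pi / 3) - g (θ + 4 * Real.pi / 3)) / Real.sqrt 3 with hD
  have hDc : Continuous D := by
    rw [hD]
    fun_prop
  have hs3 : Real.sqrt 3 ≠ 0 := by positivity
  have hs3' : Real.sqrt 3 * Real.sqrt 3 = 3 := Real.mul_self_sqrt (by norm_num)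
  set m : ℝ → ℝ := fun θ => (g (θ + 4 * Real.pi / 3) - g (θ + 2 * Real.pi / 3)) /
    (Real.sqrt 3 * Real.sin θ) with hm
  have hmc : ∀ θ, Real.sin θ ≠ 0 → ContinuousAt m θ := by
    intro θ hθ
    rw [hm]
    refine ContinuousAt.div ?_ ?_ (mul_ne_zero hs3 hθ)
    · fun_prop
    · fun_prop
  have hmD : ∀ θ, Real.sin θ ≠ 0 → -(m θ * Real.sin θ) = D θ := by
    intro θ hθ
    simp only [hm, hD]
    field_simp
    ring
  have hder0 : ∀ θ, Real.sin θ ≠ 0 → HasDerivAt g (D θ) θ := by
    intro θ hθ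
    have hA : HasDerivAt (fun φ => m φ * (Real.cos φ - Real.cos θ)) (D θ) θ := by
      rw [← hmD θ hθ]
      exact mul_deriv (hmc θ hθ)
    have hB : HasDerivAt (fun φ => m θ * (Real.cos φ - Real.cos θ)) (D θ) θ := by
      rw [← hmD θ hθ]
      exact mul_deriv (m := fun _ => m θ) continuousAt_const
    rcases lt_or_gt_of_ne hθ with hneg | hpos
    · refine squeeze hB hA (by simp) (by simp) ?_
      have hev : ∀ᶠ φ in 𝓝 θ, Real.sin φ < 0 :=
        (Real.continuous_sin.continuousAt).eventually_lt_const hneg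
      filter_upwards [hev] with φ hφ
      have e1 := h2 θ hneg φ hφ.le
      have e2 := h2 φ hφ θ hneg.le
      constructor
      · show m θ * (Real.cos φ - Real.cos θ) ≤ g φ - g θ
        simp only [hm]
        linarith
      · show g φ - g θ ≤ m φ * (Real.cos φ - Real.cos θ)
        have e3 : m φ * (Real.cos φ - Real.cos θ) = -(m φ * (Real.cos θ - Real.cos φ)) := by ring
        rw [e3]
        simp only [hm]
        linarith
    · refine squeeze hA hB (by simp) (by simp) ?_
      have hev : ∀ᶠ φ in 𝓝 θ, 0 < Real.sin φ :=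
        (Real.continuous_sin.continuousAt).eventually_const_lt hpos
      filter_upwards [hev] with φ hφ
      have e1 := h1 θ hpos φ hφ.le
      have e2 := h1 φ hφ θ hpos.le
      constructor
      · show m φ * (Real.cos φ - Real.cos θ) ≤ g φ - g θ
        have e3 : m φ * (Real.cos φ - Real.cos θ) = -(m φ * (Real.cos θ - Real.cos φ)) := by ring
        rw [e3]
        simp only [hm]
        linarith
      · show g φ - g θ ≤ m θ * (Real.cos φ - Real.cos θ)
        simp only [hm]
        linarith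
  have hint : ∀ θ, g θ = g 0 + ∫ x in (0 : ℝ)..θ, D x := by
    intro θ
    have hcount : {x : ℝ | Real.sin x = 0}.Countable := by
      have : {x : ℝ | Real.sin x = 0} ⊆ Set.range (fun n : ℤ => (n : ℝ) * Real.pi) := by
        intro x hx
        obtain ⟨n, hn⟩ := Real.sin_eq_zero_iff.1 hx
        exact ⟨n, hn⟩
      exact (Set.countable_range _).mono this
    have := MeasureTheory.integral_eq_of_hasDerivAt_off_countable g D (a := 0) (b := θ) hcount
      hg.continuousOn (fun x hx => hder0 x hx.2) (hDc.intervalIntegrable _ _)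
    rw [this]
    ring
  have hder : ∀ θ, HasDerivAt g (D θ) θ := by
    intro θ
    have h3 : HasDerivAt (fun u => g 0 + ∫ x in (0 : ℝ)..u, D x) (D θ) θ := by
      have := (hDc.integral_hasStrictDerivAt 0 θ).hasDerivAt
      simpa using this.const_add (g 0)
    have h4 : g = fun u => g 0 + ∫ x in (0 : ℝ)..u, D x := funext hint
    rw [h4]
    exact h3
  have p1 : ∀ θ, g (θ + 2 * Real.pi / 3 + 4 * Real.pi / 3) = g θ := by
    intro θ
    rw [← hper θ]
    congr 1
    ring
  have p2 : ∀ θ, g (θ + 4 * Real.pi / 3 + 2 * Real.pi / 3) = g θ := by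
    intro θ
    rw [← hper θ]
    congr 1
    ring
  have p3 : ∀ θ, g (θ + 2 * Real.pi / 3 + 2 * Real.pi / 3) = g (θ + 4 * Real.pi / 3) := by
    intro θ
    congr 1
    ring
  have p4 : ∀ θ, g (θ + 4 * Real.pi / 3 + 4 * Real.pi / 3) = g (θ + 2 * Real.pi / 3) := by
    intro θ
    rw [← hper (θ + 2 * Real.pi / 3)]
    congr 1
    ring
  have hsh : ∀ c θ, HasDerivAt (fun x => g (x + c)) (D (θ + c)) θ := by
    intro c θ
    exact (hder (θ + c)).comp_add_const θ c
  set S : ℝ → ℝ := fun θ => g θ + g (θ + 2 * Real.pi / 3) + g (θ + 4 * Real.pi / 3) with hS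
  have hSd : ∀ θ, HasDerivAt S 0 θ := by
    intro θ
    have h3 := ((hder θ).add (hsh (2 * Real.pi / 3) θ)).add (hsh (4 * Real.pi / 3) θ)
    have e : D θ + D (θ + 2 * Real.pi / 3) + D (θ + 4 * Real.pi / 3) = 0 := by
      simp only [hD, p1, p2, p3, p4]
      ring
    rw [e] at h3
    exact h3
  have hSc : ∀ θ, S θ = S 0 := fun θ =>
    is_const_of_deriv_eq_zero (fun x => (hSd x).differentiableAt) (fun x => (hSd x).deriv) θ 0
  set a : ℝ := S 0 / 3 with ha
  have hDd : ∀ θ, HasDerivAt D (a - g θ) θ := by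
    intro θ
    have h3 := ((hsh (2 * Real.pi / 3) θ).sub (hsh (4 * Real.pi / 3) θ)).div_const (Real.sqrt 3)
    have e : (D (θ + 2 * Real.pi / 3) - D (θ + 4 * Real.pi / 3)) / Real.sqrt 3 = a - g θ := by
      have h4 := hSc θ
      simp only [hS] at h4
      simp only [hD, p1, p2, p3, p4]
      have h5 : ((g (θ + 4 * Real.pi / 3) - g θ) / Real.sqrt 3 -
          (g θ - g (θ + 2 * Real.pi / 3)) / Real.sqrt 3) / Real.sqrt 3 =
          (g (θ + 4 * Real.pi / 3) - g θ - (g θ - g (θ + 2 * Real.pi / 3))) /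
            (Real.sqrt 3 * Real.sqrt 3) := by
        field_simp
      rw [h5, hs3', ha]
      simp only [hS]
      linarith
    rw [e] at h3
    exact h3
  have hu : ∀ θ, HasDerivAt (fun θ => (g θ - a) * Real.cos θ - D θ * Real.sin θ) 0 θ := by
    intro θ
    have h3 := (((hder θ).sub_const a).mul (Real.hasDerivAt_cos θ)).sub
      ((hDd θ).mul (Real.hasDerivAt_sin θ))
    refine h3.congr_deriv ?_
    ring
  have hv : ∀ θ, HasDerivAt (fun θ => (g θ - a) * Real.sin θ + D θ * Real.cos θ) 0 θ := by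
    intro θ
    have h3 := (((hder θ).sub_const a).mul (Real.hasDerivAt_sin θ)).add
      ((hDd θ).mul (Real.hasDerivAt_cos θ))
    refine h3.congr_deriv ?_
    ring
  refine ⟨a, (g 0 - a) * Real.cos 0 - D 0 * Real.sin 0,
    (g 0 - a) * Real.sin 0 + D 0 * Real.cos 0, fun θ => ?_⟩
  have h3 := is_const_of_deriv_eq_zero (fun x => (hu x).differentiableAt)
    (fun x => (hu x).deriv) θ 0
  have h4 := is_const_of_deriv_eq_zero (fun x => (hv x).differentiableAt)
    (fun x => (hv x).deriv) θ 0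
  rw [← h3, ← h4]
  have h5 := Real.sin_sq_add_cos_sq θ
  linear_combination (-(g θ - a)) * h5

end Pool.Agent.Helper90.AI
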