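import Pool.Agent.Helper72.AI.Stmts

/-!
# Membership of points in the sector `c, A_i, A_j`
-/

set_option autoImplicit false

namespace Pool.Agent.Helper90.AI

theorem conv3 {G : Set (ℝ × ℝ)} (hG : Convex ℝ G) {P Q R : ℝ × ℝ} (hP : P ∈ G) (hQ : Q ∈ G)
    (hR : R ∈ G) {a b c : ℝ} (ha : 0 ≤ a) (hb : 0 ≤ b) (hc : 0 ≤ c) (h : a + b + c = 1) :
    a • P + b • Q + c • R ∈ G := by
  have := hG.sum_mem (t := (Finset.univ : Finset (Fin 3))) (w := ![a, b, c]) (z := ![P, Q, R])
    (by intro i _; fin_cases i <;> simp [ha, hb, hc])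
    (by simp [Fin.sum_univ_three, h])
    (by intro i _; fin_cases i <;> simp [hP, hQ, hR])
  simpa [Fin.sum_univ_three] using this

theorem star_aux (G : Set (ℝ × ℝ)) (hG : Convex ℝ G) (Ai Aj Ak : ℝ × ℝ) (hi : Ai ∈ G)
    (hj : Aj ∈ G) (hk : Ak ∈ G) (u ni nj nk : ℝ) (hu0 : 0 ≤ u) (hu1 : u < 1) (hni : 0 ≤ ni)
    (hnj : 0 ≤ nj) (hnk : nk = 2 * u / (1 - u))
    (hB : ((1 + u) / 2) • Ai + ((1 + u) / 2) • Aj + (-u) • Ak ∈ G) (hL : 0 < ni + nj + nk)
    (c : ℝ × ℝ) (hc : (ni + nj + nk) • c = ni • Ai + nj • Aj + nk • Ak)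
    (α β : ℝ) (hα : 0 ≤ α) (hβ : 0 ≤ β)
    (h1 : (1 + nj + nk) * α + (1 - ni) * β ≤ 1 + nj + nk)
    (hcase : (1 + nk + ni) * β ≤ (1 + nk + nj) * α) :
    c + α • (Ai - c) + β • (Aj - c) ∈ G := by
  have hu2 : 0 < 1 - u := by linarith
  have hnk0 : 0 ≤ nk := by rw [hnk]; positivity
  have hnk' : nk * (1 - u) = 2 * u := by rw [hnk]; field_simp
  have hcG : c ∈ G := by
    have e : c = (ni / (ni + nj + nk)) • Ai + (nj / (ni + nj + nk)) • Aj +
        (nk / (ni + nj + nk)) • Ak := by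
      have h2 : c = (ni + nj + nk)⁻¹ • ((ni + nj + nk) • c) := by
        rw [smul_smul, inv_mul_cancel₀ hL.ne', one_smul]
      rw [h2, hc, smul_add, smul_add, smul_smul, smul_smul, smul_smul]
      simp only [div_eq_inv_mul]
    rw [e]
    refine conv3 hG hi hj hk (by positivity) (by positivity) (by positivity) ?_
    field_simp
  set x : ℝ := (1 - u) / 2 * (1 + nk + ni) with hx
  set y : ℝ := (1 - u) / 2 * (1 + nk + nj) with hy
  have hx0 : 0 < x := by positivity
  have hy0 : 0 < y := by positivity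
  have key : c + α • (Ai - c) + β • (Aj - c) =
      (β / y) • (((1 + u) / 2) • Ai + ((1 + u) / 2) • Aj + (-u) • Ak) +
        (α - x * β / y) • Ai + (1 - β / y - α + x * β / y) • c := by
    have comp : ∀ ai aj ak c' : ℝ, (ni + nj + nk) * c' = ni * ai + nj * aj + nk * ak →
        c' + α * (ai - c') + β * (aj - c') =
        (β / y) * (((1 + u) / 2) * ai + ((1 + u) / 2) * aj + (-u) * ak) +
        (α - x * β / y) * ai + (1 - β / y - α + x * β / y) * c' := by
      intro ai aj ak c' h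
      have hB' : ((1 + u) / 2) * ai + ((1 + u) / 2) * aj + (-u) * ak =
          x * ai + y * aj + (1 - x - y) * c' := by
        rw [hx, hy]
        linear_combination ((1 - u) / 2) * h + (-(1 / 2)) * (ai + aj - ak - c') * hnk'
      rw [hB']
      field_simp
      ring
    ext
    · have h2 := congrArg Prod.fst hc
      simp only [Prod.smul_fst, Prod.fst_add, smul_eq_mul] at h2
      have := comp Ai.1 Aj.1 Ak.1 c.1 h2
      simp only [Prod.fst_add, Prod.smul_fst, Prod.fst_sub, smul_eq_mul]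
      exact this
    · have h2 := congrArg Prod.snd hc
      simp only [Prod.smul_snd, Prod.snd_add, smul_eq_mul] at h2
      have := comp Ai.2 Aj.2 Ak.2 c.2 h2
      simp only [Prod.snd_add, Prod.smul_snd, Prod.snd_sub, smul_eq_mul]
      exact this
  rw [key]
  refine conv3 hG hB hi hcG (by positivity) ?_ ?_ (by ring)
  · have h2 : x * β / y ≤ α := by
      rw [div_le_iff₀ hy0, hx, hy]
      have : (1 - u) / 2 * ((1 + nk + ni) * β) ≤ (1 - u) / 2 * ((1 + nk + nj) * α) :=
        mul_le_mul_of_nonneg_left hcase (by positivity)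
      linarith
    linarith
  · have h3 : 1 - x = (1 - u) / 2 * (1 - ni) := by
      rw [hx]
      linear_combination (-(1 / 2)) * hnk'
    have h4 : 1 - β / y - α + x * β / y = 1 - α - β * (1 - x) / y := by ring
    rw [h4, h3]
    have h5 : β * ((1 - u) / 2 * (1 - ni)) / y ≤ 1 - α := by
      rw [div_le_iff₀ hy0, hy]
      have : (1 - u) / 2 * ((1 + nj + nk) * α + (1 - ni) * β) ≤ (1 - u) / 2 * (1 + nj + nk) :=
        mul_le_mul_of_nonneg_left h1 (by positivity)
      linarith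
    linarith

theorem pf_S_star : AffInc.S_star := by
  intro G hG Ai Aj Ak hi hj hk u ni nj nk hu0 hu1 hni hnj hnk hB hL c hc α β hα hβ h1 h2
  rcases le_total ((1 + nk + ni) * β) ((1 + nk + nj) * α) with h | h
  · exact star_aux G hG Ai Aj Ak hi hj hk u ni nj nk hu0 hu1 hni hnj hnk hB hL c hc α β hα hβ h1 h
  · have h3 := star_aux G hG Aj Ai Ak hj hi hk u nj ni nk hu0 hu1 hnj hni hnk
      (by rwa [add_comm (((1 + u) / 2) • Aj)]) (by linarith) c
      (by rw [add_comm nj ni, hc, add_comm (nj • Aj)]) β α hβ hα h2 h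
    rwa [add_right_comm] at h3

end Pool.Agent.Helper90.AI
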